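import Mathlib

set_option autoImplicit false
open Set Filter Topology MeasureTheory Metric
open scoped ENNReal

namespace Pool.Agent.Results.MP_395e41_an.No

variable {E F : Type} [NormedAddCommGroup E] [NormedSpace ℝ E] [NormedAddCommGroup F]

/-- Admissible controls: measurable on the half line, with values in `U` almost everywhere. -/
def Adm (U : Set F) (u : ℝ → F) : Prop :=
  AEStronglyMeasurable u (volume.restrict (Ici 0)) ∧ ∀ᵐ t ∂volume.restrict (Ici 0), u t ∈ U

/-- Caratheodory solutions on the half line. -/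
def IsSol (f : E → F → E) (u : ℝ → F) (x₀ : E) (x : ℝ → E) : Prop :=
  ∀ t, 0 ≤ t → IntervalIntegrable (fun s => f (x s) (u s)) volume 0 t ∧
    x t = x₀ + ∫ s in (0 : ℝ)..t, f (x s) (u s)

/-- `φ` is the solution map: existence, uniqueness and continuity in the initial value. -/
def IsFlow (f : E → F → E) (U : Set F) (φ : ℝ → E → (ℝ → F) → E) : Prop :=
  ∀ u, Adm U u → (∀ x₀, IsSol f u x₀ (fun t => φ t x₀ u) ∧
    ∀ x, IsSol f u x₀ x → ∀ t, 0 ≤ t → x t = φ t x₀ u) ∧ ∀ t, 0 ≤ t → Continuous fun x₀ => φ t x₀ u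

/-- Functions of class KL. -/
def IsKL (ζ : ℝ → ℝ → ℝ) : Prop :=
  ContinuousOn (fun p : ℝ × ℝ => ζ p.1 p.2) (Ici 0 ×ˢ Ici 0) ∧
  (∀ s, 0 ≤ s → ζ 0 s = 0 ∧ StrictMonoOn (fun r => ζ r s) (Ici 0)) ∧
  ∀ r, 0 < r → StrictAntiOn (ζ r) (Ici 0) ∧ Tendsto (ζ r) atTop (𝓝 0)

def Stabilizable (φ : ℝ → E → (ℝ → F) → E) (U : Set F) (ζ : ℝ → ℝ → ℝ) (Γ Λ : Set E) : Prop :=
  ∀ x₀ ∈ Γ, ∃ u, Adm U u ∧ ∀ t, 0 ≤ t → infDist (φ t x₀ u) Λ ≤ ζ (infDist x₀ Λ) t

/-- Minimal cardinality of a finite set of admissible controls that is spanning (`δ = 0`) or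
practically spanning (`δ = ε`); infinite if there is none. -/
noncomputable def rmin (φ : ℝ → E → (ℝ → F) → E) (U : Set F) (ζ : ℝ → ℝ → ℝ) (Γ Λ : Set E)
    (ε δ τ : ℝ) : ℝ≥0∞ :=
  ⨅ (S : Finset (ℝ → F)) (_ : (∀ u ∈ S, Adm U u) ∧ ∀ x₀ ∈ Γ, ∃ u ∈ S, ∀ t ∈ Icc 0 τ,
    infDist (φ t x₀ u) Λ ≤ ζ (infDist x₀ Λ + ε) t + δ), (S.card : ℝ≥0∞)

/-- The exponential growth rate of `rmin`. -/
noncomputable def rate (φ : ℝ → E → (ℝ → F) → E) (U : Set F) (ζ : ℝ → ℝ → ℝ) (Γ Λ : Set E)
    (ε δ : ℝ) : EReal :=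
  limsup (fun τ : ℝ => ENNReal.log (rmin φ U ζ Γ Λ ε δ τ) / (τ : EReal)) atTop

lemma lim {r : ℝ → ℝ≥0∞} {a c C : ℝ} (c0 : 0 < c) (C0 : 0 < C) (h : ∀ τ, 0 < τ →
    .ofReal (c * Real.exp (a * τ)) ≤ r τ ∧ r τ ≤ .ofReal (C * Real.exp (a * τ))) :
    limsup (fun τ : ℝ => ENNReal.log (r τ) / (τ : EReal)) atTop = a := by
  have k : ∀ c : ℝ, 0 < c → Tendsto (fun τ : ℝ => ENNReal.log (.ofReal (c * Real.exp (a * τ))) / (τ : EReal))
      atTop (𝓝 a) := fun c c0 => by
    have := (continuous_coe_real_ereal.tendsto _).comp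
      ((tendsto_id.const_div_atTop (Real.log c)).add_const a)
    rw [zero_add] at this
    refine this.congr' ((eventually_gt_atTop 0).mono fun τ t0 => ?_)
    simp only [Function.comp, id]
    rw [ENNReal.log_ofReal_of_pos (by positivity), ← EReal.coe_div, Real.log_mul c0.ne' (by positivity),
      Real.log_exp]
    congr 1; field_simp
  refine (tendsto_of_tendsto_of_tendsto_of_le_of_le' (k c c0) (k C C0) ?_ ?_).limsup_eq <;>
    filter_upwards [eventually_gt_atTop 0] with τ t0 <;>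
    refine EReal.div_le_div_right_of_nonneg (by exact_mod_cast t0.le) (ENNReal.log_monotone ?_)
  exacts [(h τ t0).1, (h τ t0).2]

theorem result (k : ℕ) (hk : 1 ≤ k) :
    ∃ φ : ℝ → ℝ → (ℝ → ℝ) → ℝ, IsFlow (fun _ u => -u ^ k) (Icc 0 1) φ ∧
      IsKL (fun r s => r * Real.exp (-s)) ∧
      Stabilizable φ (Icc 0 1) (fun r s => r * Real.exp (-s)) (Icc 0 1) {0} ∧
      Tendsto (fun ε => rate φ (Icc 0 1) (fun r s => r * Real.exp (-s)) (Icc 0 1) {0} ε ε)
        (𝓝[>] 0) (𝓝 0) ∧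
      Tendsto (fun ε => rate φ (Icc 0 1) (fun r s => r * Real.exp (-s)) (Icc 0 1) {0} ε 0)
        (𝓝[>] 0) (𝓝 1) := by
  classical
  let φ : ℝ → ℝ → (ℝ → ℝ) → ℝ := fun t x u => x + ∫ s in (0 : ℝ)..t, -u s ^ k
  let v : ℝ → ℝ → ℝ := fun c t => (c * Real.exp (-t)) ^ (k : ℝ)⁻¹
  have va : ∀ c ∈ Icc (0 : ℝ) 1, Adm (Icc 0 1) (v c) := fun c hc => ⟨Measurable.aestronglyMeasurable (by fun_prop),
    (ae_restrict_mem measurableSet_Ici).mono fun t ht => ⟨by have := hc.1; positivity,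
      Real.rpow_le_one (by have := hc.1; positivity) (mul_le_one₀ hc.2 (by positivity)
        (Real.exp_le_one_iff.2 (neg_nonpos.2 ht))) (by positivity)⟩⟩
  have vf : ∀ c, 0 ≤ c → ∀ t x, φ t x (v c) = x - c + c * Real.exp (-t) := fun c c0 t x => by
    simp only [φ, v, Real.rpow_inv_natCast_pow (by positivity : 0 ≤ c * Real.exp (-_)) (by omega : k ≠ 0)]
    rw [intervalIntegral.integral_neg, intervalIntegral.integral_const_mul,
      intervalIntegral.integral_comp_neg fun s => Real.exp s, integral_exp]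
    simp; ring
  have up : ∀ ε δ τ η : ℝ, 0 < η → (∀ t ∈ Icc 0 τ, η ≤ ε * Real.exp (-t) + δ) →
      rmin φ (Icc 0 1) (fun r s => r * Real.exp (-s)) (Icc 0 1) {0} ε δ τ ≤ .ofReal (1 / η + 1) :=
    fun ε δ τ η e0 h => by
      refine iInf₂_le_of_le ((Finset.range (⌊1 / η⌋₊ + 1)).image fun j : ℕ => v (j * η)) ⟨?_, fun x hx => ?_⟩ ?_
      · simp only [Finset.mem_image, Finset.mem_range]
        rintro _ ⟨j, hj, rfl⟩
        exact va _ ⟨by positivity, (le_div_iff₀ e0).1 ((Nat.le_floor_iff (by positivity)).1 (by omega))⟩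
      · have x0 := hx.1
        refine ⟨_, Finset.mem_image_of_mem _ (Finset.mem_range.2 (Nat.lt_succ_of_le (Nat.floor_le_floor
          (div_le_div_of_nonneg_right hx.2 e0.le)))), fun t ht => ?_⟩
        have h1 := (le_div_iff₀ e0).1 (Nat.floor_le (a := x / η) (by positivity))
        have h2 := (div_lt_iff₀ e0).1 (Nat.lt_floor_add_one (x / η))
        have h3 := mul_le_mul_of_nonneg_right h1 (Real.exp_pos (-t)).le
        rw [vf _ (by positivity), infDist_singleton, infDist_singleton, dist_zero_right, dist_zero_right,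
          Real.norm_of_nonneg x0, Real.norm_of_nonneg (add_nonneg (by linarith) (by positivity))]
        linarith [h t ht]
      · rw [← ENNReal.ofReal_natCast]
        refine ENNReal.ofReal_le_ofReal ((Nat.cast_le.2 Finset.card_image_le).trans ?_)
        simpa using Nat.floor_le (a := η⁻¹) (by positivity)
  refine ⟨φ, fun u hu => ⟨fun x => ⟨fun t ht => ⟨?_, rfl⟩, fun y hy t ht => (hy t ht).2⟩,
    fun t _ => by fun_prop⟩, ⟨by fun_prop, fun s _ => ⟨by simp, fun a _ b _ e => by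
      exact mul_lt_mul_of_pos_right e (Real.exp_pos _)⟩, fun r r0 => ⟨fun a _ b _ e => by
      exact mul_lt_mul_of_pos_left (Real.exp_lt_exp.2 (neg_lt_neg e)) r0, by
      simpa using Real.tendsto_exp_neg_atTop_nhds_zero.const_mul r⟩⟩, fun x hx => ⟨_, va x hx, fun t _ => ?_⟩,
    tendsto_const_nhds.congr' (eventually_mem_nhdsWithin.mono fun ε (e0 : 0 < ε) => ?_),
    tendsto_const_nhds.congr' (eventually_mem_nhdsWithin.mono fun ε (e0 : 0 < ε) => ?_)⟩
  · rw [intervalIntegrable_iff_integrableOn_Icc_of_le ht]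
    have hs : volume.restrict (Icc 0 t) ≤ volume.restrict (Ici (0 : ℝ)) :=
      Measure.restrict_mono Icc_subset_Ici_self le_rfl
    refine .of_bound (by simp) ((hu.1.mono_measure hs).pow k).neg 1
      ((hu.2.filter_mono (ae_mono hs)).mono fun s h => ?_)
    rw [norm_neg, norm_pow, Real.norm_of_nonneg h.1]; exact pow_le_one₀ h.1 h.2
  · have := hx.1
    rw [vf _ this, infDist_singleton, infDist_singleton, dist_zero_right, dist_zero_right,
      Real.norm_of_nonneg this, sub_self, zero_add, Real.norm_of_nonneg (by positivity)]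
  · refine (lim (a := 0) one_pos (by positivity : 0 < 1 / ε + 1) fun τ _ => ⟨le_iInf₂ fun S hS => ?_, ?_⟩).symm
    · obtain ⟨u, hu, -⟩ := hS.2 0 (by simp)
      simpa using ⟨u, hu⟩
    · exact (up ε ε τ ε e0 fun t _ => le_add_of_nonneg_left (by positivity)).trans_eq (by simp)
  refine (lim (a := 1) (by positivity : 0 < 1 / (2 * (1 + ε))) (by positivity : 0 < 1 / ε + 1)
    fun τ t0 => ⟨le_iInf₂ fun S hS => ?_, ?_⟩).symm
  · have : Icc (0 : ℝ) 1 ⊆ ⋃ u ∈ S, closedBall (-φ τ 0 u) ((1 + ε) * Real.exp (-τ)) := fun x hx => by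
      obtain ⟨u, hu, h⟩ := hS.2 x hx
      have := h τ ⟨t0.le, le_rfl⟩
      rw [infDist_singleton, infDist_singleton, dist_zero_right, dist_zero_right, Real.norm_of_nonneg hx.1,
        add_zero] at this
      refine mem_iUnion₂.2 ⟨u, hu, ?_⟩
      rw [mem_closedBall, dist_eq_norm, sub_neg_eq_add]
      simp only [φ, zero_add]
      exact this.trans (mul_le_mul_of_nonneg_right (by linarith [hx.2]) (by positivity))
    have := (measure_mono (μ := volume) this).trans (measure_biUnion_finset_le _ _)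
    simp only [Real.volume_Icc, Real.volume_closedBall, Finset.sum_const, nsmul_eq_mul] at this
    rw [← ENNReal.ofReal_natCast] at this ⊢
    rw [← ENNReal.ofReal_mul (by positivity), ENNReal.ofReal_le_ofReal_iff (by positivity), Real.exp_neg] at this
    refine ENNReal.ofReal_le_ofReal ?_
    have := Real.exp_pos τ
    rw [one_mul]
    field_simp at *
    linarith
  · refine (up ε 0 τ (ε * Real.exp (-τ)) (by positivity) fun t ht => by
      rw [add_zero]; gcongr; exact ht.2).trans (ENNReal.ofReal_le_ofReal ?_)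
    have := Real.one_le_exp t0.le
    rw [Real.exp_neg, one_mul, add_mul]
    gcongr
    · field_simp; rfl
    · linarith

end Pool.Agent.Results.MP_395e41_an.No
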